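import Pool.Agent.Lib.MP_40de08_gt.OneMain

open scoped Manifold ContDiff
open MeasureTheory Pool.Agent.Lib.MP_40de08_gt

namespace Pool.Agent.Results.MP_40de08_gt.BoundedC1

/-- On a closed connected 3-manifold, `J_2` is bounded above on the cone `C_1([g₀])` of conformal
metrics with `σ_1 > 0`; this cone contains `C_2([g₀])`. -/
theorem result (M : Type) [TopologicalSpace M] [T2Space M] [CompactSpace M] [ConnectedSpace M]
    [ChartedSpace E3 M] [IsManifold 𝓘(ℝ, E3) ∞ M] [MeasurableSpace M] [BorelSpace M] (g₀ : Met M) :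
    ∃ C : ℝ, ∀ g ∈ C1 g₀,
      IsFiniteMeasure (vol g) ∧ Integrable (sigma2 g) (vol g) ∧ J2 g ≤ C :=
  main_one g₀

end Pool.Agent.Results.MP_40de08_gt.BoundedC1
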